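import Pool.Agent.Helper74.NW.Basic
import Pool.Agent.Helper74.NS.Defs

/-!
# Nondeterministic programs which inspect nearly all cells: definitions

The positions of a row are the pairs `(u, t)`: the letter `t` of the node `u`; there are `n` nodes with `m` letters.
The letter `(u, t)` of the row `i + 1` is the sum of the entries `(s, r)` of the cells given by the letters
`(g s u, t + r)` of the row `i`. So all the letters of the node `u` use the cells of all the letters of the nodes
`g s u`; the letter `(u, t)` uses the entry `(s, t' - t)` of the cell of the letter `(g s u, t')`.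
-/

namespace Pool.Agent.Helper74.NE

open Pool.Agent.Helper19.NF Pool.Agent.Helper74.NW

variable {n d m : ℕ} {B : Type} [AddCommGroup B]

/-- The permutations of the letters. -/
def fine [NeZero m] (g : Fin d → Equiv.Perm (Fin n)) (c : Fin d × Fin m) : Equiv.Perm (Fin n × Fin m) :=
  (g c.1).prodCongr (Equiv.addRight c.2)

theorem fine_apply [NeZero m] (g : Fin d → Equiv.Perm (Fin n)) (c : Fin d × Fin m) (u : Fin n × Fin m) :
    fine g c u = (g c.1 u.1, u.2 + c.2) := rfl

/-- Product lemma with the error `δ`: if `y` and `z` are random words with letters in `ι`, `Z₁` depends on `z` only,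
`Z₂` on `y` only, then the probability that the union of `Z₁` and `Z₂` has at most `T` elements and contains all the
letters of `x + y + z` is at most `δ`. -/
def DP (B ι : Type) [AddCommGroup B] (T : ℕ) (δ : ℝ) : Prop :=
  ∀ (x : ι → B) (Z₁ Z₂ : (ι → B) → Set B),
    (Nat.card {p : (ι → B) × (ι → B) // (Z₁ p.2 ∪ Z₂ p.1).ncard ≤ T ∧ ∀ t, x t + p.1 t + p.2 t ∈ Z₁ p.2 ∪ Z₂ p.1} : ℝ) ≤
      δ * Nat.card ((ι → B) × (ι → B))

variable [NeZero m]

open Classical in
/-- The nodes of row `i` such that all their letters are queried in the list. -/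
noncomputable def full (g : Fin d → Equiv.Perm (Fin n)) (x0 : Fin n × Fin m → B)
    (I : B → Fin d × Fin m → B) (i : ℕ) (l : List B) : Finset (Fin n) :=
  Finset.univ.filter (fun u => ∀ t, val (fine g) x0 I i (u, t) ∈ l)

open Classical in
/-- The nodes `u` of row `i + 1` such that all the letters of the nodes `g s u` of row `i` are queried in the list. -/
noncomputable def comp (g : Fin d → Equiv.Perm (Fin n)) (x0 : Fin n × Fin m → B)
    (I : B → Fin d × Fin m → B) (i : ℕ) (l : List B) : Finset (Fin n) :=
  Finset.univ.filter (fun u => ∀ c : Fin d × Fin m, val (fine g) x0 I i (g c.1 u, c.2) ∈ l)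

open Classical in
/-- The nodes of row `i + 1` such that all their letters are queried in `w₁ ++ w₂`, but neither `w₁` nor `w₂` contains
all the letters of the nodes `g s u` of row `i`. -/
noncomputable def bad (g : Fin d → Equiv.Perm (Fin n)) (x0 : Fin n × Fin m → B)
    (I : B → Fin d × Fin m → B) (i : ℕ) (w₁ w₂ : List B) : Finset (Fin n) :=
  (full g x0 I (i + 1) (w₁ ++ w₂)).filter (fun u => u ∉ comp g x0 I i w₁ ∧ u ∉ comp g x0 I i w₂)

/-- The hole number `j`: the cell of the letter `(r j).2` of the node `g (r j).1 (u j)` of the row `i`. -/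
def hole {a : ℕ} (g : Fin d → Equiv.Perm (Fin n)) (x0 : Fin n × Fin m → B) (i : ℕ) (u : Fin a → Fin n)
    (r : Fin a → Fin d × Fin m) (I : B → Fin d × Fin m → B) (j : Fin a) : B :=
  val (fine g) x0 I i (g (r j).1 (u j), (r j).2)

open Classical in
/-- The change of the contents of the holes by `y`: the entry of the hole `j` used by the letter `t` of the node `u j`
changes by `y (j, t)`. -/
noncomputable def chg {a : ℕ} (g : Fin d → Equiv.Perm (Fin n)) (x0 : Fin n × Fin m → B) (i : ℕ)
    (u : Fin a → Fin n) (r : Fin a → Fin d × Fin m) (y : Fin a × Fin m → B)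
    (I : B → Fin d × Fin m → B) : B → Fin d × Fin m → B :=
  fun b c => ∑ j, ∑ t, if b = hole g x0 i u r I j ∧ c = ((r j).1, (r j).2 - t) then y (j, t) else 0

/-- The instances with two adjacent windows of the given kind. -/
def InX {a S K : ℕ} (P : NProg B (Fin d × Fin m → B) B S) (e : B → Fin K) (g : Fin d → Equiv.Perm (Fin n))
    (x0 : Fin n × Fin m → B) (T i : ℕ) (u : Fin a → Fin n) (r r' : Fin a → Fin d × Fin m) (s p t : Fin S)
    (I : B → Fin d × Fin m → B) : Prop :=
  CF (fine g) x0 i I ∧ ∃ w₁ w₂ : List B, Best P e I s w₁ p ∧ Best P e I p w₂ t ∧ Nat.card {c // c ∈ w₁ ++ w₂} ≤ T ∧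
    ∀ j, (∀ v, val (fine g) x0 I (i + 1) (u j, v) ∈ w₁ ++ w₂) ∧
      hole g x0 i u r I j ∉ w₁ ∧ hole g x0 i u r' I j ∉ w₂

end Pool.Agent.Helper74.NE
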