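import Pool.Agent.Helper74.NE.Head

/-!
A problem given by a network with `R + 1` rows of `8 a` nodes with `m` letters and one table with `k` cells (words of
`13 m` letters). Nondeterministic programs which leave a part `1 - τ` of the cells unread, for any `τ < 1`, and
nondeterministic pushdown programs which in addition stop within `2 ^ b` steps, need an exponential number of
states (steps), even on average; a deterministic pushdown program of polynomial size solves it and reads at most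
`√k` cells.
-/

namespace Pool.Agent.Results.MP_4e849b_lc.NondeterministicNearlyAll

open Pool.Agent.Helper19.NF Pool.Agent.Helper74.NE
open Pool.Agent.Helper74.NW hiding fine fine_apply full hole chg InX

theorem result :
    (∀ (a m : ℕ) [NeZero m], 1 ≤ a → ∃ g : Fin 13 → Equiv.Perm (Fin (8 * a)),
      ∀ (B : Type) [AddCommGroup B] [Finite B] (x0 : Fin (8 * a) × Fin m → B), Function.Injective x0 →
      ∀ (R k V : ℕ) (c : Fin 13 × Fin m), k = Nat.card B → V = (R + 1) * (8 * a * m) → V ≤ k →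
      (∀ (S T p : ℕ) (φ : B → B) (P : NProg B (Fin 13 × Fin m → B) B S) (τ : ℝ),
        (∀ y, Nat.card {x // φ x = y} ≤ p) → T ≤ k → τ = T / k →
        (Nat.card {I : B → Fin 13 × Fin m → B // (∃ l z, P.Ends I l z) ∧
          (∀ l z, P.Ends I l z → z = φ (res (fine g) x0 R c I)) ∧
          ∀ l z, P.Shortest I l z → Nat.card {b // b ∈ l} ≤ T ∧ min S l.length ≤ 2 ^ R} : ℝ) ≤
          ((2 * m * p + V ^ 2) / k + 2 * R * S ^ 3 * (3549 * m ^ 2 * (2 / (3 - τ)) ^ m) ^ a) *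
            Nat.card (B → Fin 13 × Fin m → B)) ∧
      (∀ (S T : ℕ) (Y : Set B) (P : NProg B (Fin 13 × Fin m → B) B S) (y τ : ℝ),
        y = Nat.card Y / k → T ≤ k → τ = T / k →
        (min y ((1 - y) / (2 * m)) - V ^ 2 / k - 2 * R * S ^ 3 * (3549 * m ^ 2 * (2 / (3 - τ)) ^ m) ^ a) *
            Nat.card (B → Fin 13 × Fin m → B) ≤
          Nat.card {I : B → Fin 13 × Fin m → B // ¬ (((∃ l z, P.Ends I l z) ↔ res (fine g) x0 R c I ∈ Y) ∧
            ∀ l z, P.Shortest I l z → Nat.card {b // b ∈ l} ≤ T ∧ min S l.length ≤ 2 ^ R)}) ∧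
      (∀ (q b T p : ℕ) (Q Γ : Type) (_ : Finite Q) (φ : B → B) (P : NPProg B (Fin 13 × Fin m → B) B Q Γ) (τ : ℝ),
        q = Nat.card Q → b < R → (∀ y, Nat.card {x // φ x = y} ≤ p) → T + 1 ≤ k → τ = (T + 1) / k →
        (Nat.card {I : B → Fin 13 × Fin m → B // (∃ l n z, P.Ends I l n z ∧ n ≤ 2 ^ b) ∧
          ∀ l n z, P.Ends I l n z → z = φ (res (fine g) x0 R c I) ∧ Nat.card {b // b ∈ l} ≤ T} : ℝ) ≤
          ((2 * m * p + V ^ 2) / k +
            2 * R * ((2 * q ^ 2 + 2) ^ (b + 2)) ^ 3 * (3549 * m ^ 2 * (2 / (3 - τ)) ^ m) ^ a) *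
            Nat.card (B → Fin 13 × Fin m → B)) ∧
      (∀ (q b T : ℕ) (Q Γ : Type) (_ : Finite Q) (Y : Set B) (P : NPProg B (Fin 13 × Fin m → B) B Q Γ)
        (y τ : ℝ), q = Nat.card Q → b < R → y = Nat.card Y / k → T + 1 ≤ k → τ = (T + 1) / k →
        (min y ((1 - y) / (2 * m)) - V ^ 2 / k -
            2 * R * ((2 * q ^ 2 + 2) ^ (b + 2)) ^ 3 * (3549 * m ^ 2 * (2 / (3 - τ)) ^ m) ^ a) *
            Nat.card (B → Fin 13 × Fin m → B) ≤
          Nat.card {I : B → Fin 13 × Fin m → B //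
            ¬ ((res (fine g) x0 R c I ∈ Y → ∃ l n z, P.Ends I l n z ∧ n ≤ 2 ^ b) ∧
              ∀ l n z, P.Ends I l n z → res (fine g) x0 R c I ∈ Y ∧ Nat.card {b // b ∈ l} ≤ T)}) ∧
      (∃ S ≤ (V + 1) * k ^ (16 * a * m), ∃ P : NProg B (Fin 13 × Fin m → B) B S,
        (∀ s b next, P.act s = Sum.inl (b, next) → ∀ w, ∃ t, next w = {t}) ∧
        ∀ I, ∃ l, P.Ends I l (res (fine g) x0 R c I) ∧
          (∀ l' z, P.Ends I l' z → l' = l ∧ z = res (fine g) x0 R c I) ∧ Nat.card {b // b ∈ l} ≤ V) ∧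
      (∃ (Q Γ : Type) (_ : Finite Q) (_ : Finite Γ) (P : PProg B (Fin 13 × Fin m → B) B Q Γ),
        Nat.card Q ≤ (13 * m * k) ^ 4 ∧ Nat.card Γ ≤ (13 * m * k) ^ 2 ∧
        ∀ I, P.Outputs I (res (fine g) x0 R c I) ∧ Nat.card {b // P.Asks I b} ≤ V)) ∧
    (∀ ε : ℝ, 0 < ε → ε ≤ 1 →
      ∃ (m : ℕ) (_ : NeZero m), ∀ a : ℕ, 1 ≤ a → ∃ g : Fin 13 → Equiv.Perm (Fin (8 * a)),
      ∀ (B : Type) [AddCommGroup B] [Finite B] (x0 : Fin (8 * a) × Fin m → B), Function.Injective x0 →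
      ∀ (k : ℕ) (c : Fin 13 × Fin m), k = Nat.card B → 8192 * m ^ 3 * a ^ 4 ≤ k →
      (∀ (S : ℕ) (Y : Set B) (P : NProg B (Fin 13 × Fin m → B) B S) (y : ℝ), S ≤ 2 ^ a → y = Nat.card Y / k →
        (min y ((1 - y) / (2 * m)) - 1 / (16 * m)) * Nat.card (B → Fin 13 × Fin m → B) ≤
          Nat.card {I : B → Fin 13 × Fin m → B // ¬ (((∃ l z, P.Ends I l z) ↔ res (fine g) x0 a c I ∈ Y) ∧
            ∀ l z, P.Shortest I l z → (Nat.card {b // b ∈ l} : ℝ) ≤ (1 - ε) * k)}) ∧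
      (∀ (q b : ℕ) (Q Γ : Type) (_ : Finite Q) (Y : Set B) (P : NPProg B (Fin 13 × Fin m → B) B Q Γ)
        (y : ℝ), q = Nat.card Q → (2 * q ^ 2 + 2) ^ (b + 2) ≤ 2 ^ a → y = Nat.card Y / k →
        (min y ((1 - y) / (2 * m)) - 1 / (16 * m)) * Nat.card (B → Fin 13 × Fin m → B) ≤
          Nat.card {I : B → Fin 13 × Fin m → B //
            ¬ ((res (fine g) x0 a c I ∈ Y → ∃ l n z, P.Ends I l n z ∧ n ≤ 2 ^ b) ∧
              ∀ l n z, P.Ends I l n z → res (fine g) x0 a c I ∈ Y ∧ (Nat.card {b // b ∈ l} : ℝ) ≤ (1 - ε) * k)}) ∧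
      (∃ (Q Γ : Type) (_ : Finite Q) (_ : Finite Γ) (P : PProg B (Fin 13 × Fin m → B) B Q Γ),
        Nat.card Q ≤ (13 * m * k) ^ 4 ∧ Nat.card Γ ≤ (13 * m * k) ^ 2 ∧
        ∀ I, P.Outputs I (res (fine g) x0 a c I) ∧ (Nat.card {b // P.Asks I b} : ℝ) ≤ √k)) :=
  ⟨fun a m _ ha => ne_main a m ha, head⟩

end Pool.Agent.Results.MP_4e849b_lc.NondeterministicNearlyAll
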