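import Pool.Agent.Helper74.NE.Num
import Pool.Agent.Helper78.NE.Fin
import Pool.Agent.Helper84.NW.Row
import Pool.Agent.Helper96.NW.Push
import Pool.Agent.Helper92.NS.Perms

/-!
# The theorem with numbers
-/

namespace Pool.Agent.Helper74.NE

open Pool.Agent.Helper19.NF
open Pool.Agent.Helper74.NW hiding fine fine_apply full hole chg InX

theorem ne_main (a m : ℕ) [NeZero m] (ha : 1 ≤ a) :
    ∃ g : Fin 13 → Equiv.Perm (Fin (8 * a)),
      ∀ (B : Type) [AddCommGroup B] [Finite B] (x0 : Fin (8 * a) × Fin m → B), Function.Injective x0 →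
      ∀ (R k V : ℕ) (c : Fin 13 × Fin m), k = Nat.card B → V = (R + 1) * (8 * a * m) → V ≤ k →
      (∀ (S T p : ℕ) (φ : B → B) (P : NProg B (Fin 13 × Fin m → B) B S) (τ : ℝ),
        (∀ y, Nat.card {x // φ x = y} ≤ p) → T ≤ k → τ = T / k →
        (Nat.card {I : B → Fin 13 × Fin m → B // (∃ l z, P.Ends I l z) ∧
          (∀ l z, P.Ends I l z → z = φ (res (fine g) x0 R c I)) ∧
          ∀ l z, P.Shortest I l z → Nat.card {b // b ∈ l} ≤ T ∧ min S l.length ≤ 2 ^ R} : ℝ) ≤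
          ((2 * m * p + V ^ 2) / k + 2 * R * S ^ 3 * (3549 * m ^ 2 * (2 / (3 - τ)) ^ m) ^ a) *
            Nat.card (B → Fin 13 × Fin m → B)) ∧
      (∀ (S T : ℕ) (Y : Set B) (P : NProg B (Fin 13 × Fin m → B) B S) (y τ : ℝ),
        y = Nat.card Y / k → T ≤ k → τ = T / k →
        (min y ((1 - y) / (2 * m)) - V ^ 2 / k - 2 * R * S ^ 3 * (3549 * m ^ 2 * (2 / (3 - τ)) ^ m) ^ a) *
            Nat.card (B → Fin 13 × Fin m → B) ≤
          Nat.card {I : B → Fin 13 × Fin m → B // ¬ (((∃ l z, P.Ends I l z) ↔ res (fine g) x0 R c I ∈ Y) ∧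
            ∀ l z, P.Shortest I l z → Nat.card {b // b ∈ l} ≤ T ∧ min S l.length ≤ 2 ^ R)}) ∧
      (∀ (q b T p : ℕ) (Q Γ : Type) (_ : Finite Q) (φ : B → B) (P : NPProg B (Fin 13 × Fin m → B) B Q Γ) (τ : ℝ),
        q = Nat.card Q → b < R → (∀ y, Nat.card {x // φ x = y} ≤ p) → T + 1 ≤ k → τ = (T + 1) / k →
        (Nat.card {I : B → Fin 13 × Fin m → B // (∃ l n z, P.Ends I l n z ∧ n ≤ 2 ^ b) ∧
          ∀ l n z, P.Ends I l n z → z = φ (res (fine g) x0 R c I) ∧ Nat.card {b // b ∈ l} ≤ T} : ℝ) ≤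
          ((2 * m * p + V ^ 2) / k +
            2 * R * ((2 * q ^ 2 + 2) ^ (b + 2)) ^ 3 * (3549 * m ^ 2 * (2 / (3 - τ)) ^ m) ^ a) *
            Nat.card (B → Fin 13 × Fin m → B)) ∧
      (∀ (q b T : ℕ) (Q Γ : Type) (_ : Finite Q) (Y : Set B) (P : NPProg B (Fin 13 × Fin m → B) B Q Γ)
        (y τ : ℝ), q = Nat.card Q → b < R → y = Nat.card Y / k → T + 1 ≤ k → τ = (T + 1) / k →
        (min y ((1 - y) / (2 * m)) - V ^ 2 / k -
            2 * R * ((2 * q ^ 2 + 2) ^ (b + 2)) ^ 3 * (3549 * m ^ 2 * (2 / (3 - τ)) ^ m) ^ a) *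
            Nat.card (B → Fin 13 × Fin m → B) ≤
          Nat.card {I : B → Fin 13 × Fin m → B //
            ¬ ((res (fine g) x0 R c I ∈ Y → ∃ l n z, P.Ends I l n z ∧ n ≤ 2 ^ b) ∧
              ∀ l n z, P.Ends I l n z → res (fine g) x0 R c I ∈ Y ∧ Nat.card {b // b ∈ l} ≤ T)}) ∧
      (∃ S ≤ (V + 1) * k ^ (16 * a * m), ∃ P : NProg B (Fin 13 × Fin m → B) B S,
        (∀ s b next, P.act s = Sum.inl (b, next) → ∀ w, ∃ t, next w = {t}) ∧
        ∀ I, ∃ l, P.Ends I l (res (fine g) x0 R c I) ∧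
          (∀ l' z, P.Ends I l' z → l' = l ∧ z = res (fine g) x0 R c I) ∧ Nat.card {b // b ∈ l} ≤ V) ∧
      (∃ (Q Γ : Type) (_ : Finite Q) (_ : Finite Γ) (P : PProg B (Fin 13 × Fin m → B) B Q Γ),
        Nat.card Q ≤ (13 * m * k) ^ 4 ∧ Nat.card Γ ≤ (13 * m * k) ^ 2 ∧
        ∀ I, P.Outputs I (res (fine g) x0 R c I) ∧ Nat.card {b // P.Asks I b} ≤ V) := by
  classical
  obtain ⟨g, hg⟩ := Pool.Agent.Helper92.NS.exists_perms a ha
  have hC := Pool.Agent.Helper92.NS.choose_le a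
  have hm0 : 0 < m := NeZero.pos m
  refine ⟨g, fun B _ _ x0 h0 R k V c hk hV hVk => ?_⟩
  have := Fintype.ofFinite B
  have : Nonempty (Fin 13 × Fin m) := ⟨c⟩
  have : NeZero (8 * a) := ⟨by omega⟩
  have : Nonempty (Fin (8 * a) × Fin m) := ⟨(0, 0)⟩
  have hk2 : k = Fintype.card B := by rw [hk, Nat.card_eq_fintype_card]
  have hk0 : 0 < k := by rw [hk2]; exact Fintype.card_pos_iff.mpr ⟨0⟩
  have hk0' : (0 : ℝ) < k := by exact_mod_cast hk0
  have hV' : (V : ℝ) = (R + 1) * ((8 * a : ℕ) * m) := by rw [hV]; push_cast; ring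
  have hVpos : 8 ≤ V := by
    rw [hV]
    have h1 : 1 ≤ a * m := Nat.mul_pos ha hm0
    nlinarith
  have hcU : Fintype.card (Fin (8 * a) × Fin m) = 8 * a * m := by
    rw [Fintype.card_prod, Fintype.card_fin, Fintype.card_fin]
  have hcD : Fintype.card (Fin 13 × Fin m) = 13 * m := by
    rw [Fintype.card_prod, Fintype.card_fin, Fintype.card_fin]
  have hdp : ∀ T : ℕ, T ≤ k → ∀ τ : ℝ, τ = T / k →
      DP B (Fin a × Fin m) T (2 * (2 / (3 - τ)) ^ (a * m)) := by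
    intro T hT τ hτ
    have h1 := dp (B := B) (ι := Fin a × Fin m) (T := T) (τ := τ) (by rw [← hk]; exact hT) (by rw [← hk]; exact hτ)
    rwa [Nat.card_eq_fintype_card (α := Fin a × Fin m), Fintype.card_prod, Fintype.card_fin,
      Fintype.card_fin] at h1
  have hτ1 : ∀ (T : ℕ) (τ : ℝ), T ≤ k → τ = T / k → τ ≤ 1 := by
    intro T τ hT hτ
    rw [hτ, div_le_one hk0']
    exact_mod_cast hT
  refine ⟨?_, ?_, ?_, ?_, ?_, ?_⟩
  · intro S T p φ P τ hφ hT hτ
    refine (Pool.Agent.Helper78.NE.main_bound P g x0 h0 (R := R) (T := T) (hdp T hT τ hτ) c ha le_rfl hg φ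
      hφ).trans ?_
    refine mul_le_mul_of_nonneg_right ?_ (Nat.cast_nonneg _)
    rw [← hk2, hV']
    exact add_le_add le_rfl (term_le hC R (Nat.cast_nonneg S) (hτ1 T τ hT hτ))
  · intro S T Y P y τ hy hT hτ
    have h3 := Pool.Agent.Helper78.NE.decision_bound P g x0 h0 (R := R) (T := T) (hdp T hT τ hτ) c ha le_rfl hg
      (Finset.univ.filter (fun b => b ∈ Y)) y (by
        rw [hy, hk2]
        congr 2
        rw [Nat.card_eq_fintype_card]
        exact Fintype.card_of_subtype _ (fun b => by simp))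
    simp only [Finset.mem_filter, Finset.mem_univ, true_and] at h3
    refine le_trans ?_ h3
    refine mul_le_mul_of_nonneg_right ?_ (Nat.cast_nonneg _)
    rw [← hk2, hV']
    exact sub_le_sub_left (term_le hC R (Nat.cast_nonneg S) (hτ1 T τ hT hτ)) _
  · intro q b T p Q Γ _ φ P τ hq hb hφ hT hτ
    have := Fintype.ofFinite Q
    have hτ' : τ = ((T + 1 : ℕ) : ℝ) / k := by rw [hτ]; push_cast; rfl
    refine (Pool.Agent.Helper78.NE.push_main_bound P g x0 h0 (R := R) (T := T) (hdp (T + 1) hT τ hτ') hb c ha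
      le_rfl hg φ hφ).trans ?_
    refine mul_le_mul_of_nonneg_right ?_ (Nat.cast_nonneg _)
    rw [← hk2, hV', hq, Nat.card_eq_fintype_card (α := Q)]
    exact add_le_add le_rfl (term_le hC R (by positivity) (hτ1 (T + 1) τ hT hτ'))
  · intro q b T Q Γ _ Y P y τ hq hb hy hT hτ
    have := Fintype.ofFinite Q
    have hτ' : τ = ((T + 1 : ℕ) : ℝ) / k := by rw [hτ]; push_cast; rfl
    have h3 := Pool.Agent.Helper78.NE.push_decision_bound P g x0 h0 (R := R) (T := T) (hdp (T + 1) hT τ hτ') hb c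
      ha le_rfl hg (Finset.univ.filter (fun b => b ∈ Y)) y (by
        rw [hy, hk2]
        congr 2
        rw [Nat.card_eq_fintype_card]
        exact Fintype.card_of_subtype _ (fun b => by simp))
    simp only [Finset.mem_filter, Finset.mem_univ, true_and] at h3
    refine le_trans ?_ h3
    refine mul_le_mul_of_nonneg_right ?_ (Nat.cast_nonneg _)
    rw [← hk2, hV', hq, Nat.card_eq_fintype_card (α := Q)]
    exact sub_le_sub_left (term_le hC R (s := (2 * (Fintype.card Q : ℝ) ^ 2 + 2) ^ (b + 2)) (by positivity)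
      (hτ1 (T + 1) τ hT hτ')) _
  · obtain ⟨S, hS, P, h1, h2⟩ := Pool.Agent.Helper84.NW.row_program (fine g) x0 R c
    refine ⟨S, ?_, P, h1, ?_⟩
    · rw [hcU, ← hV, ← hk2] at hS
      refine hS.trans (le_of_eq ?_)
      congr 2
      ring
    · rw [hcU, ← hV] at h2
      exact h2
  · obtain ⟨Q, Γ, h1, h2, P, h3, h4, h5⟩ := Pool.Agent.Helper96.NW.pushdown_program (fine g) x0 R c
      (by rw [hcU, ← hV, ← hk2]; exact hVk) (by omega)
    rw [hcU, ← hV] at h5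
    rw [hcD, ← hk2] at h3 h4
    exact ⟨Q, Γ, h1, h2, P, h3, h4, h5⟩

end Pool.Agent.Helper74.NE
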