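import Pool.Agent.Helper74.NE.Defs

/-!
# Frame (only for the work, not for the graded result)
-/

namespace Pool.Agent.Helper74.NE.Frame

open Pool.Agent.Helper74.NW Pool.Agent.Helper74.NE Pool.Agent.Helper19.NF
open Pool.Agent.Helper74.NS (Expands)

variable {n d m : ℕ} {B : Type} [AddCommGroup B] [NeZero m] {S K : ℕ}

/-- E4 (helper1): without bad cuts the computation is long. -/
theorem long {g : Fin d → Equiv.Perm (Fin n)} {x0 : Fin n × Fin m → B} {R a : ℕ}
    {I : B → Fin d × Fin m → B} (ha : 1 ≤ a) (hE : Expands g a) (hI : CF (fine g) x0 R I) (l : List B)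
    (hl : 4 * a ≤ (full g x0 I R l).card)
    (hh : ∀ i < R, ∀ p w₁ w₂ q, l = p ++ w₁ ++ w₂ ++ q → (bad g x0 I i w₁ w₂).card < a) : 2 ^ R < l.length := sorry

/-- E5 (helper96): the windows are the same for all elements of a class with the same `z` (the first) or `y` (the
second), so the product lemma applies. -/
theorem class_bound [Fintype B] (P : NProg B (Fin d × Fin m → B) B S) (e : B → Fin K)
    (he : Function.Injective e) (g : Fin d → Equiv.Perm (Fin n)) (x0 : Fin n × Fin m → B)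
    {T i a : ℕ} {δ : ℝ} (hδ : DP B (Fin a × Fin m) T δ) (u : Fin a → Fin n) (hu : StrictMono u)
    (r r' : Fin a → Fin d × Fin m) (s p t : Fin S) (I : B → Fin d × Fin m → B) (hI : CF (fine g) x0 i I) :
    (Nat.card {y : (Fin a × Fin m → B) × (Fin a × Fin m → B) //
        InX P e g x0 T i u r r' s p t (I + chg g x0 i u r y.1 I + chg g x0 i u r' y.2 I)} : ℝ) ≤
      δ * Nat.card ((Fin a × Fin m → B) × (Fin a × Fin m → B)) := sorry

/-- E6a (helper66): the number of instances of one type. -/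
theorem type_bound [Fintype B] (P : NProg B (Fin d × Fin m → B) B S) (e : B → Fin K)
    (he : Function.Injective e) (g : Fin d → Equiv.Perm (Fin n)) (x0 : Fin n × Fin m → B)
    {T i a : ℕ} {δ : ℝ} (hδ : DP B (Fin a × Fin m) T δ) (u : Fin a → Fin n) (hu : StrictMono u)
    (r r' : Fin a → Fin d × Fin m) (s p t : Fin S) :
    (Nat.card {I : B → Fin d × Fin m → B // InX P e g x0 T i u r r' s p t I} : ℝ) ≤
      δ * Nat.card (B → Fin d × Fin m → B) := sorry

/-- E6b (helper66): all types. -/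
theorem good_bound [Fintype B] (P : NProg B (Fin d × Fin m → B) B S) (e : B → Fin K)
    (he : Function.Injective e) (g : Fin d → Equiv.Perm (Fin n)) (x0 : Fin n × Fin m → B)
    {R T a : ℕ} {δ : ℝ} (hδ : DP B (Fin a × Fin m) T δ) (ha : 1 ≤ a) (hE : Expands g a) :
    (Nat.card {I : B → Fin d × Fin m → B // CF (fine g) x0 R I ∧ ∃ l t, Best P e I P.start l t ∧
        Nat.card {c // c ∈ l} ≤ T ∧ 4 * a ≤ (full g x0 I R l).card ∧ l.length ≤ 2 ^ R} : ℝ) ≤
      R * n.choose a * ((d * m) ^ a) ^ 2 * (S : ℝ) ^ 3 * δ * Nat.card (B → Fin d × Fin m → B) := sorry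

/-- E7a (helper78): the instances with right results for which many cells of the last row are not read: at least `n / 2`
of the `n m` letters of the last row are not read. -/
theorem root_bound [Fintype B] (P : NProg B (Fin d × Fin m → B) B S)
    (g : Fin d → Equiv.Perm (Fin n)) (x0 : Fin n × Fin m → B) {R a p : ℕ} (c : Fin d × Fin m)
    (hn : 8 * a ≤ n) (hn1 : 1 ≤ n) (φ : B → B) (hφ : ∀ y, Nat.card {x // φ x = y} ≤ p) :
    Nat.card {I : B → Fin d × Fin m → B // CF (fine g) x0 R I ∧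
        (∀ l z, P.Ends I l z → z = φ (res (fine g) x0 R c I)) ∧
        ∃ l z, P.Ends I l z ∧ (full g x0 I R l).card < 4 * a} * Fintype.card B ≤
      2 * m * p * Nat.card (B → Fin d × Fin m → B) := sorry

/-- E7b (helper78): decision version. -/
theorem root_bound' [Fintype B] (P : NProg B (Fin d × Fin m → B) B S)
    (g : Fin d → Equiv.Perm (Fin n)) (x0 : Fin n × Fin m → B) {R a : ℕ} (c : Fin d × Fin m)
    (hn : 8 * a ≤ n) (hn1 : 1 ≤ n) (Y : Finset B) :
    Nat.card {I : B → Fin d × Fin m → B // CF (fine g) x0 R I ∧ res (fine g) x0 R c I ∈ Y ∧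
        ∃ l z, P.Ends I l z ∧ (full g x0 I R l).card < 4 * a} * (Fintype.card B - Y.card) ≤
      2 * m * Y.card * Nat.card {I : B → Fin d × Fin m → B // res (fine g) x0 R c I ∉ Y ∧ ∃ l z, P.Ends I l z} := sorry

/-- E8 (helper74): the main inequality. -/
theorem main_bound [Fintype B] (P : NProg B (Fin d × Fin m → B) B S)
    (g : Fin d → Equiv.Perm (Fin n)) (x0 : Fin n × Fin m → B) (h0 : Function.Injective x0) {R T a p : ℕ} {δ : ℝ}
    (hδ : DP B (Fin a × Fin m) T δ) (c : Fin d × Fin m) (ha : 1 ≤ a) (hn : 8 * a ≤ n) (hE : Expands g a)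
    (φ : B → B) (hφ : ∀ y, Nat.card {x // φ x = y} ≤ p) :
    (Nat.card {I : B → Fin d × Fin m → B // (∃ l z, P.Ends I l z) ∧
        (∀ l z, P.Ends I l z → z = φ (res (fine g) x0 R c I)) ∧
        ∀ l z, P.Shortest I l z → Nat.card {b // b ∈ l} ≤ T ∧ min S l.length ≤ 2 ^ R} : ℝ) ≤
      ((2 * m * p + ((R + 1) * (n * m)) ^ 2) / Fintype.card B +
        R * n.choose a * ((d * m) ^ a) ^ 2 * (S : ℝ) ^ 3 * δ) * Nat.card (B → Fin d × Fin m → B) := sorry

/-- E8b (helper78): the decision version. -/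
theorem decision_bound [Fintype B] (P : NProg B (Fin d × Fin m → B) B S)
    (g : Fin d → Equiv.Perm (Fin n)) (x0 : Fin n × Fin m → B) (h0 : Function.Injective x0) {R T a : ℕ} {δ : ℝ}
    (hδ : DP B (Fin a × Fin m) T δ) (c : Fin d × Fin m) (ha : 1 ≤ a) (hn : 8 * a ≤ n) (hE : Expands g a)
    (Y : Finset B) (y : ℝ) (hy : y = Y.card / Fintype.card B) :
    (min y ((1 - y) / (2 * m)) - ((R + 1) * (n * m)) ^ 2 / Fintype.card B -
        R * n.choose a * ((d * m) ^ a) ^ 2 * (S : ℝ) ^ 3 * δ) * Nat.card (B → Fin d × Fin m → B) ≤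
      Nat.card {I : B → Fin d × Fin m → B // ¬ (((∃ l z, P.Ends I l z) ↔ res (fine g) x0 R c I ∈ Y) ∧
        ∀ l z, P.Shortest I l z → Nat.card {b // b ∈ l} ≤ T ∧ min S l.length ≤ 2 ^ R)} := sorry

/-- E9 (helper78): both for nondeterministic pushdown programs with `q` states which end within `2 ^ b` steps. -/
theorem push_main_bound {Q Γ : Type} [Fintype Q] [Fintype B] (P : NPProg B (Fin d × Fin m → B) B Q Γ)
    (g : Fin d → Equiv.Perm (Fin n)) (x0 : Fin n × Fin m → B) (h0 : Function.Injective x0) {R T a p b : ℕ} {δ : ℝ}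
    (hδ : DP B (Fin a × Fin m) (T + 1) δ) (hb : b < R) (c : Fin d × Fin m) (ha : 1 ≤ a) (hn : 8 * a ≤ n)
    (hE : Expands g a) (φ : B → B) (hφ : ∀ y, Nat.card {x // φ x = y} ≤ p) :
    (Nat.card {I : B → Fin d × Fin m → B // (∃ l k z, P.Ends I l k z ∧ k ≤ 2 ^ b) ∧
        ∀ l k z, P.Ends I l k z → z = φ (res (fine g) x0 R c I) ∧ Nat.card {b // b ∈ l} ≤ T} : ℝ) ≤
      ((2 * m * p + ((R + 1) * (n * m)) ^ 2) / Fintype.card B +
        R * n.choose a * ((d * m) ^ a) ^ 2 * ((2 * (Fintype.card Q : ℝ) ^ 2 + 2) ^ (b + 2)) ^ 3 * δ) *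
          Nat.card (B → Fin d × Fin m → B) := sorry

theorem push_decision_bound {Q Γ : Type} [Fintype Q] [Fintype B] (P : NPProg B (Fin d × Fin m → B) B Q Γ)
    (g : Fin d → Equiv.Perm (Fin n)) (x0 : Fin n × Fin m → B) (h0 : Function.Injective x0) {R T a b : ℕ} {δ : ℝ}
    (hδ : DP B (Fin a × Fin m) (T + 1) δ) (hb : b < R) (c : Fin d × Fin m) (ha : 1 ≤ a) (hn : 8 * a ≤ n)
    (hE : Expands g a) (Y : Finset B) (y : ℝ) (hy : y = Y.card / Fintype.card B) :
    (min y ((1 - y) / (2 * m)) - ((R + 1) * (n * m)) ^ 2 / Fintype.card B -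
        R * n.choose a * ((d * m) ^ a) ^ 2 * ((2 * (Fintype.card Q : ℝ) ^ 2 + 2) ^ (b + 2)) ^ 3 * δ) *
          Nat.card (B → Fin d × Fin m → B) ≤
      Nat.card {I : B → Fin d × Fin m → B //
        ¬ ((res (fine g) x0 R c I ∈ Y → ∃ l k z, P.Ends I l k z ∧ k ≤ 2 ^ b) ∧
          ∀ l k z, P.Ends I l k z → res (fine g) x0 R c I ∈ Y ∧ Nat.card {b // b ∈ l} ≤ T)} := sorry

/-- E3 (helper92): the product lemma. To be decided: the form of the constants (explicit and absolute, please). -/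
theorem product_lemma : ∃ C : ℝ, 1 ≤ C ∧ ∀ (B ι : Type) [AddCommGroup B] [Finite B] [Finite ι] (T : ℕ) (ε : ℝ),
    0 < ε → ε ≤ 1 → T ≤ (1 - ε) * Nat.card B →
      DP B ι T (C * Real.exp (- (ε / (C * Real.log (2 / ε))) * Nat.card ι)) := sorry

end Pool.Agent.Helper74.NE.Frame
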