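import Pool.Agent.Helper66.NE.P6
import Pool.Agent.Helper1.NE.Long
import Pool.Agent.Helper96.NE.Two

/-!
# All types
-/

namespace Pool.Agent.Helper74.NE

open Pool.Agent.Helper74.NW
open Pool.Agent.Helper19.NF
open Pool.Agent.Helper74.NS (Expands)

variable {n d m : ℕ} {B : Type} [AddCommGroup B] [NeZero m] {S K : ℕ}

theorem dp_nonneg [Finite B] {ι : Type} [Finite ι] {T : ℕ} {δ : ℝ} (h : DP B ι T δ) : 0 ≤ δ := by
  have h1 := h (fun _ => 0) (fun _ => ∅) (fun _ => ∅)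
  have h2 : (0 : ℝ) < Nat.card ((ι → B) × (ι → B)) := by
    have : 0 < Nat.card ((ι → B) × (ι → B)) := Nat.card_pos
    exact_mod_cast this
  by_contra hneg
  push Not at hneg
  have h3 : δ * Nat.card ((ι → B) × (ι → B)) < 0 := mul_neg_of_neg_of_pos hneg h2
  exact absurd (h1.trans_lt h3) (not_lt.mpr (Nat.cast_nonneg _))

theorem good_bound [Fintype B] (P : NProg B (Fin d × Fin m → B) B S) (e : B → Fin K)
    (he : Function.Injective e) (g : Fin d → Equiv.Perm (Fin n)) (x0 : Fin n × Fin m → B)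
    {R T a : ℕ} {δ : ℝ} (hδ : DP B (Fin a × Fin m) T δ) (ha : 1 ≤ a) (hE : Expands g a) :
    (Nat.card {I : B → Fin d × Fin m → B // CF (fine g) x0 R I ∧ ∃ l t, Best P e I P.start l t ∧
        Nat.card {c // c ∈ l} ≤ T ∧ 4 * a ≤ (full g x0 I R l).card ∧ l.length ≤ 2 ^ R} : ℝ) ≤
      R * n.choose a * ((d * m) ^ a) ^ 2 * (S : ℝ) ^ 3 * δ * Nat.card (B → Fin d × Fin m → B) :=
  Pool.Agent.Helper66.NE.good_bound_of P e g x0 (dp_nonneg hδ)
    (fun _ hI l hl hh => Pool.Agent.Helper1.NE.long ha hE hI l hl hh)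
    (fun _ _ u hu r r' s p t I hI => Pool.Agent.Helper96.NE.class_bound P e he g x0 hδ u hu r r' s p t I hI)

end Pool.Agent.Helper74.NE
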