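import Pool.Agent.Helper74.NE.Final

/-!
# The headline
-/

namespace Pool.Agent.Helper74.NE

open Pool.Agent.Helper19.NF Filter
open Pool.Agent.Helper74.NW hiding fine fine_apply full hole chg InX

/-- For every `ε > 0` some number of letters is enough. -/
theorem exists_m {ε : ℝ} (hε : 0 < ε) : ∃ m : ℕ, 1 ≤ m ∧ 1 ≤ ε * m ∧
    3549 * (m : ℝ) ^ 2 * (2 / (2 + ε)) ^ m ≤ 1 / (512 * m) := by
  have hr : |2 / (2 + ε)| < 1 := by
    rw [abs_of_nonneg (by positivity), div_lt_one (by linarith)]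
    linarith
  have h1 := tendsto_pow_const_mul_const_pow_of_abs_lt_one 3 hr
  have h2 : ∀ᶠ n : ℕ in atTop, (n : ℝ) ^ 3 * (2 / (2 + ε)) ^ n < 1 / (512 * 3549) :=
    h1.eventually_lt_const (by norm_num)
  obtain ⟨m, hm1, hm2, hm3⟩ := (h2.and ((eventually_ge_atTop 1).and (eventually_ge_atTop ⌈1 / ε⌉₊))).exists
  refine ⟨m, hm2, ?_, ?_⟩
  · have h3 : 1 / ε ≤ m := (Nat.le_ceil _).trans (by exact_mod_cast hm3)
    rw [div_le_iff₀ hε] at h3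
    linarith
  have hm0 : (0 : ℝ) < m := by exact_mod_cast hm2
  rw [le_div_iff₀ (by positivity)]
  have h3 : 3549 * (m : ℝ) ^ 2 * (2 / (2 + ε)) ^ m * (512 * m) =
      512 * 3549 * ((m : ℝ) ^ 3 * (2 / (2 + ε)) ^ m) := by ring
  rw [h3]
  have h4 := (lt_div_iff₀ (by norm_num : (0 : ℝ) < 512 * 3549)).mp hm1
  linarith

/-- The last term for `s ≤ 2 ^ a`. -/
theorem head_term {a m : ℕ} {ε τ s : ℝ} (ha : 1 ≤ a) (hm1 : 1 ≤ m) (hε : 0 < ε)
    (hm : 3549 * (m : ℝ) ^ 2 * (2 / (2 + ε)) ^ m ≤ 1 / (512 * m)) (hτ : τ ≤ 1 - ε) (hs0 : 0 ≤ s)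
    (hs : s ≤ 2 ^ a) : 2 * (a : ℝ) * s ^ 3 * (3549 * m ^ 2 * (2 / (3 - τ)) ^ m) ^ a ≤ 1 / (32 * m) := by
  have hm0 : (0 : ℝ) < m := by exact_mod_cast hm1
  have h1 : 2 / (3 - τ) ≤ 2 / (2 + ε) := div_le_div_of_nonneg_left (by norm_num) (by linarith) (by linarith)
  have h0 : 0 ≤ 2 / (3 - τ) := div_nonneg (by norm_num) (by linarith)
  have h2 : 3549 * (m : ℝ) ^ 2 * (2 / (3 - τ)) ^ m ≤ 1 / (512 * m) :=
    (mul_le_mul_of_nonneg_left (pow_le_pow_left₀ h0 h1 m) (by positivity)).trans hm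
  have h3 : (3549 * (m : ℝ) ^ 2 * (2 / (3 - τ)) ^ m) ^ a ≤ (1 / (512 * m)) ^ a :=
    pow_le_pow_left₀ (by positivity) h2 a
  have h4 : s ^ 3 ≤ 8 ^ a := by
    calc s ^ 3 ≤ (2 ^ a) ^ 3 := pow_le_pow_left₀ hs0 hs 3
      _ = 8 ^ a := by rw [← pow_mul, mul_comm, pow_mul]; norm_num
  have h5 : 2 * (a : ℝ) * s ^ 3 * (3549 * m ^ 2 * (2 / (3 - τ)) ^ m) ^ a ≤ 2 * a * 8 ^ a * (1 / (512 * m)) ^ a := by
    have h6 : 0 ≤ (3549 * (m : ℝ) ^ 2 * (2 / (3 - τ)) ^ m) ^ a := by positivity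
    exact mul_le_mul (mul_le_mul_of_nonneg_left h4 (by positivity)) h3 h6 (by positivity)
  have h7 : 2 * (a : ℝ) * 8 ^ a * (1 / (512 * m)) ^ a = 2 * a * (1 / (64 * m)) ^ a := by
    rw [mul_assoc, ← mul_pow]
    congr 2
    field_simp
    norm_num
  have h8 : ∀ b : ℕ, (a : ℕ) = b + 1 → 2 * (a : ℝ) * (1 / (64 * m)) ^ a ≤ 1 / (32 * m) := by
    intro b hb
    rw [hb]
    have h9 : (1 / (64 * (m : ℝ))) ^ b ≤ (1 / 2) ^ b := by
      refine pow_le_pow_left₀ (by positivity) ?_ b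
      refine div_le_div_of_nonneg_left (by norm_num) (by norm_num) ?_
      have : (1 : ℝ) ≤ m := by exact_mod_cast hm1
      linarith
    have h10 : ((b : ℝ) + 1) * (1 / 2) ^ b ≤ 1 := by
      have h11 : (b : ℝ) + 1 ≤ 2 ^ b := by
        have : b + 1 ≤ 2 ^ b := Nat.lt_two_pow_self
        exact_mod_cast this
      calc ((b : ℝ) + 1) * (1 / 2) ^ b ≤ 2 ^ b * (1 / 2) ^ b := mul_le_mul_of_nonneg_right h11 (by positivity)
        _ = 1 := by rw [← mul_pow]; norm_num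
    push_cast
    calc 2 * ((b : ℝ) + 1) * (1 / (64 * m)) ^ (b + 1)
        = (1 / (32 * m)) * (((b : ℝ) + 1) * (1 / (64 * m)) ^ b) := by
          rw [pow_succ]
          field_simp
          ring
      _ ≤ (1 / (32 * m)) * (((b : ℝ) + 1) * (1 / 2) ^ b) := by gcongr
      _ ≤ (1 / (32 * m)) * 1 := by gcongr
      _ = 1 / (32 * m) := mul_one _
  rw [h7] at h5
  exact h5.trans (h8 (a - 1) (by omega))

/-- The term for the collisions. -/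
theorem head_coll {a m k V : ℕ} (hm1 : 1 ≤ m) (ha : 1 ≤ a) (hV : V = (a + 1) * (8 * a * m))
    (hk : 8192 * m ^ 3 * a ^ 4 ≤ k) : (V : ℝ) ^ 2 / k ≤ 1 / (32 * m) := by
  have hm0 : (0 : ℝ) < m := by exact_mod_cast hm1
  have ha0 : (1 : ℝ) ≤ a := by exact_mod_cast ha
  have hk' : 8192 * (m : ℝ) ^ 3 * a ^ 4 ≤ k := by exact_mod_cast hk
  have hk0 : (0 : ℝ) < k := lt_of_lt_of_le (by positivity) hk'
  have hV1 : (V : ℝ) ≤ 16 * m * a ^ 2 := by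
    rw [hV]
    push_cast
    calc ((a : ℝ) + 1) * (8 * a * m) ≤ (2 * a) * (8 * a * m) :=
          mul_le_mul_of_nonneg_right (by linarith) (by positivity)
      _ = 16 * m * a ^ 2 := by ring
  rw [div_le_div_iff₀ hk0 (by positivity)]
  calc (V : ℝ) ^ 2 * (32 * m) ≤ (16 * m * a ^ 2) ^ 2 * (32 * m) :=
        mul_le_mul_of_nonneg_right (pow_le_pow_left₀ (Nat.cast_nonneg _) hV1 2) (by positivity)
    _ = 8192 * m ^ 3 * a ^ 4 := by ring
    _ ≤ 1 * k := by linarith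

theorem head (ε : ℝ) (hε : 0 < ε) (hε1 : ε ≤ 1) :
    ∃ (m : ℕ) (_ : NeZero m), ∀ a : ℕ, 1 ≤ a → ∃ g : Fin 13 → Equiv.Perm (Fin (8 * a)),
      ∀ (B : Type) [AddCommGroup B] [Finite B] (x0 : Fin (8 * a) × Fin m → B), Function.Injective x0 →
      ∀ (k : ℕ) (c : Fin 13 × Fin m), k = Nat.card B → 8192 * m ^ 3 * a ^ 4 ≤ k →
      (∀ (S : ℕ) (Y : Set B) (P : NProg B (Fin 13 × Fin m → B) B S) (y : ℝ), S ≤ 2 ^ a → y = Nat.card Y / k →
        (min y ((1 - y) / (2 * m)) - 1 / (16 * m)) * Nat.card (B → Fin 13 × Fin m → B) ≤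
          Nat.card {I : B → Fin 13 × Fin m → B // ¬ (((∃ l z, P.Ends I l z) ↔ res (fine g) x0 a c I ∈ Y) ∧
            ∀ l z, P.Shortest I l z → (Nat.card {b // b ∈ l} : ℝ) ≤ (1 - ε) * k)}) ∧
      (∀ (q b : ℕ) (Q Γ : Type) (_ : Finite Q) (Y : Set B) (P : NPProg B (Fin 13 × Fin m → B) B Q Γ)
        (y : ℝ), q = Nat.card Q → (2 * q ^ 2 + 2) ^ (b + 2) ≤ 2 ^ a → y = Nat.card Y / k →
        (min y ((1 - y) / (2 * m)) - 1 / (16 * m)) * Nat.card (B → Fin 13 × Fin m → B) ≤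
          Nat.card {I : B → Fin 13 × Fin m → B //
            ¬ ((res (fine g) x0 a c I ∈ Y → ∃ l n z, P.Ends I l n z ∧ n ≤ 2 ^ b) ∧
              ∀ l n z, P.Ends I l n z → res (fine g) x0 a c I ∈ Y ∧ (Nat.card {b // b ∈ l} : ℝ) ≤ (1 - ε) * k)}) ∧
      (∃ (Q Γ : Type) (_ : Finite Q) (_ : Finite Γ) (P : PProg B (Fin 13 × Fin m → B) B Q Γ),
        Nat.card Q ≤ (13 * m * k) ^ 4 ∧ Nat.card Γ ≤ (13 * m * k) ^ 2 ∧
        ∀ I, P.Outputs I (res (fine g) x0 a c I) ∧ (Nat.card {b // P.Asks I b} : ℝ) ≤ √k) := by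
  obtain ⟨m, hm1, hm2, hm3⟩ := exists_m (ε := ε / 2) (by linarith)
  have hNZ : NeZero m := ⟨by omega⟩
  refine ⟨m, hNZ, fun a ha => ?_⟩
  obtain ⟨g, hg⟩ := ne_main a m ha
  refine ⟨g, fun B _ _ x0 h0 k c hk hk1 => ?_⟩
  have hm0 : (1 : ℝ) ≤ m := by exact_mod_cast hm1
  have ha0 : (1 : ℝ) ≤ a := by exact_mod_cast ha
  have hk' : 8192 * (m : ℝ) ^ 3 * a ^ 4 ≤ k := by exact_mod_cast hk1
  have hk0 : (0 : ℝ) < k := lt_of_lt_of_le (by positivity) hk'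
  have hkm : (m : ℝ) ≤ k := by
    refine le_trans ?_ hk'
    have h1 : (1 : ℝ) ≤ a ^ 4 := one_le_pow₀ ha0
    have h2 : (m : ℝ) ≤ m ^ 3 := le_self_pow₀ hm0 (by norm_num)
    nlinarith [mul_le_mul h2 h1 (by norm_num) (by positivity)]
  have hεk : 1 ≤ ε / 2 * k := hm2.trans (mul_le_mul_of_nonneg_left hkm (by linarith))
  have hcoll := head_coll (V := (a + 1) * (8 * a * m)) hm1 ha rfl hk1
  have hVk : (((a + 1) * (8 * a * m) : ℕ) : ℝ) ^ 2 ≤ k := by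
    rw [div_le_div_iff₀ hk0 (by positivity)] at hcoll
    have h3 : (((a + 1) * (8 * a * m) : ℕ) : ℝ) ^ 2 * 1 ≤ (((a + 1) * (8 * a * m) : ℕ) : ℝ) ^ 2 * (32 * m) :=
      mul_le_mul_of_nonneg_left (by linarith) (by positivity)
    linarith
  have hVk' : (a + 1) * (8 * a * m) ≤ k := by
    have h4 : (((a + 1) * (8 * a * m) : ℕ) : ℝ) ≤ (((a + 1) * (8 * a * m) : ℕ) : ℝ) ^ 2 := by
      refine le_self_pow₀ ?_ (by norm_num)
      have : 1 ≤ (a + 1) * (8 * a * m) := Nat.mul_pos (by omega) (Nat.mul_pos (by omega) hm1)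
      exact_mod_cast this
    exact_mod_cast h4.trans hVk
  obtain ⟨-, hD, -, hN, -, hP⟩ := hg B x0 h0 a k _ c hk rfl hVk'
  obtain ⟨T, hT⟩ : ∃ T : ℕ, T = ⌊(1 - ε) * k⌋₊ := ⟨_, rfl⟩
  have hTr : (T : ℝ) ≤ (1 - ε) * k := by
    rw [hT]
    exact Nat.floor_le (mul_nonneg (by linarith) hk0.le)
  have hTk : T + 1 ≤ k := by
    have : (T : ℝ) + 1 ≤ k := by linarith
    exact_mod_cast this
  have hτ1 : (T : ℝ) / k ≤ 1 - ε / 2 := by
    rw [div_le_iff₀ hk0]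
    linarith
  have hτ2 : ((T : ℝ) + 1) / k ≤ 1 - ε / 2 := by
    rw [div_le_iff₀ hk0]
    linarith
  have hfl : ∀ n : ℕ, (n : ℝ) ≤ (1 - ε) * k → n ≤ T := fun n hn => by rw [hT]; exact Nat.le_floor hn
  have hsum : (1 : ℝ) / (32 * m) + 1 / (32 * m) = 1 / (16 * m) := by
    field_simp
    norm_num
  refine ⟨?_, ?_, ?_⟩
  · intro S Y P y hS hy
    have h1 := hD S T Y P y (T / k) hy (by omega) rfl
    have h2 := head_term (s := S) ha hm1 (by linarith : 0 < ε / 2) hm3 hτ1 (Nat.cast_nonneg S)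
      (by exact_mod_cast hS)
    refine (mul_le_mul_of_nonneg_right ?_ (Nat.cast_nonneg _)).trans (h1.trans ?_)
    · linarith
    · have : Finite (B → Fin 13 × Fin m → B) := inferInstance
      refine Nat.cast_le.mpr (Nat.card_mono (Set.toFinite _) fun I hI => ?_)
      intro h3
      exact hI ⟨h3.1, fun l z hl => ⟨hfl _ (h3.2 l z hl), (min_le_left _ _).trans hS⟩⟩
  · intro q b Q Γ _ Y P y hq hb hy
    have hba : b < a := by
      have h1 : 2 ^ (b + 2) ≤ 2 ^ a := (Nat.pow_le_pow_left (by omega : 2 ≤ 2 * q ^ 2 + 2) (b + 2)).trans hb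
      have h2 := (Nat.pow_le_pow_iff_right (by norm_num : 1 < 2)).mp h1
      omega
    have h1 := hN q b T Q Γ inferInstance Y P y ((T + 1) / k) hq hba hy hTk rfl
    have h2 := head_term (s := (2 * (q : ℝ) ^ 2 + 2) ^ (b + 2)) ha hm1 (by linarith : 0 < ε / 2) hm3 hτ2
      (by positivity) (by exact_mod_cast hb)
    refine (mul_le_mul_of_nonneg_right ?_ (Nat.cast_nonneg _)).trans (h1.trans ?_)
    · linarith
    · refine Nat.cast_le.mpr (Nat.card_mono (Set.toFinite _) fun I hI => ?_)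
      intro h3
      exact hI ⟨h3.1, fun l n z hl => ⟨(h3.2 l n z hl).1, hfl _ (h3.2 l n z hl).2⟩⟩
  · obtain ⟨Q, Γ, h1, h2, P, h3, h4, h5⟩ := hP
    refine ⟨Q, Γ, h1, h2, P, h3, h4, fun I => ⟨(h5 I).1, ?_⟩⟩
    refine Real.le_sqrt_of_sq_le ?_
    refine le_trans ?_ hVk
    exact pow_le_pow_left₀ (Nat.cast_nonneg _) (by exact_mod_cast (h5 I).2) 2

end Pool.Agent.Helper74.NE
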